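import Pool.Agent.H175G.Stmts2

/-! C5 assembly (task T19b of helper175's project). -/

namespace Pool.Agent.H175G.C5asm

open Finset Classical

variable {V : Type} {G : SimpleGraph V}

/-- few vertices have the property `P` -/
def Few (P : V → Prop) (a : ℕ) : Prop := ∃ S : Finset V, S.card ≤ a ∧ ∀ x, P x → x ∈ S

theorem few_one {P : V → Prop} (h : ∀ x y, P x → P y → x = y) : Few P 1 := by
  by_cases hx : ∃ x, P x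
  · obtain ⟨x, hx⟩ := hx
    exact ⟨{x}, by simp, fun y hy => by rw [mem_singleton]; exact h y x hy hx⟩
  · exact ⟨∅, by simp, fun y hy => absurd ⟨y, hy⟩ hx⟩

theorem Few.or {P Q : V → Prop} {a b : ℕ} (hP : Few P a) (hQ : Few Q b) :
    Few (fun x => P x ∨ Q x) (a + b) := by
  obtain ⟨S, hS, hS'⟩ := hP
  obtain ⟨T, hT, hT'⟩ := hQ
  refine ⟨S ∪ T, (card_union_le _ _).trans (by omega), fun x hx => ?_⟩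
  rcases hx with hx | hx
  · exact mem_union_left _ (hS' x hx)
  · exact mem_union_right _ (hT' x hx)

/-- a vertex attached only to `c0` -/
abbrev T1 (G : SimpleGraph V) (c0 c1 c2 c3 c4 x : V) : Prop :=
  G.Adj c0 x ∧ ¬ G.Adj c1 x ∧ ¬ G.Adj c2 x ∧ ¬ G.Adj c3 x ∧ ¬ G.Adj c4 x ∧ x ≠ c1

/-- a vertex attached only to `c0` and `c1` -/
abbrev T2 (G : SimpleGraph V) (c0 c1 c2 c3 c4 x : V) : Prop :=
  G.Adj c0 x ∧ G.Adj c1 x ∧ ¬ G.Adj c2 x ∧ ¬ G.Adj c3 x ∧ ¬ G.Adj c4 x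

theorem t1_one (hp : NoP23 G) {c0 c1 c2 c3 c4 : V} (hc : C5c G c0 c1 c2 c3 c4)
    (x y : V) (hx : T1 G c0 c1 c2 c3 c4 x) (hy : T1 G c0 c1 c2 c3 c4 y) : x = y := by
  by_contra hne
  gp 1

theorem t2_one (hp : NoP23 G) {c0 c1 c2 c3 c4 : V} (hc : C5c G c0 c1 c2 c3 c4)
    (x y : V) (hx : T2 G c0 c1 c2 c3 c4 x) (hy : T2 G c0 c1 c2 c3 c4 y) : x = y := by
  by_contra hne
  gp 1

theorem kd_one (hg : NoGem G) (hp : NoP23 G) {c0 c1 c2 c3 c4 : V} (hc : C5c G c0 c1 c2 c3 c4)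
    (x y : V) (hx : TK G c0 c1 c2 c3 c4 x ∧ ∃ d, TD G c1 c2 c3 c4 c0 d ∧ ¬ G.Adj x d)
    (hy : TK G c0 c1 c2 c3 c4 y ∧ ∃ d, TD G c1 c2 c3 c4 c0 d ∧ ¬ G.Adj y d) : x = y := by
  obtain ⟨hx, d, hd, hxd⟩ := hx
  obtain ⟨hy, e, he, hye⟩ := hy
  by_contra hne
  by_cases hde : d = e
  · subst hde
    gp 2
  · gp 2

theorem kd_one' (hg : NoGem G) (hp : NoP23 G) {c0 c1 c2 c3 c4 : V} (hc : C5c G c0 c1 c2 c3 c4)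
    (x y : V) (hx : TK G c0 c1 c2 c3 c4 x ∧ ∃ d, TD G c4 c0 c1 c2 c3 d ∧ ¬ G.Adj x d)
    (hy : TK G c0 c1 c2 c3 c4 y ∧ ∃ d, TD G c4 c0 c1 c2 c3 d ∧ ¬ G.Adj y d) : x = y := by
  obtain ⟨hx, d, hd, hxd⟩ := hx
  obtain ⟨hy, e, he, hye⟩ := hy
  by_contra hne
  by_cases hde : d = e
  · subst hde
    gp 2
  · gp 2

theorem km_one (hg : NoGem G) (hp : NoP23 G) {c0 c1 c2 c3 c4 : V} (hc : C5c G c0 c1 c2 c3 c4)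
    (x y : V) (hx : TM G c0 c1 c2 c3 c4 x ∧ ∃ k, TK G c0 c1 c2 c3 c4 k ∧ ¬ G.Adj k x)
    (hy : TM G c0 c1 c2 c3 c4 y ∧ ∃ k, TK G c0 c1 c2 c3 c4 k ∧ ¬ G.Adj k y) : x = y := by
  obtain ⟨hx, k, hk, hxk⟩ := hx
  obtain ⟨hy, l, hl, hyl⟩ := hy
  by_contra hne
  by_cases hkl : k = l
  · subst hkl
    gp 2
  · gp 2


/-- the exceptional vertices (for the index `0`) -/
def Bad (G : SimpleGraph V) (c0 c1 c2 c3 c4 x : V) : Prop :=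
  x = c0 ∨ T1 G c0 c1 c2 c3 c4 x ∨ T2 G c0 c1 c2 c3 c4 x ∨
    (TK G c0 c1 c2 c3 c4 x ∧ ∃ d, TD G c1 c2 c3 c4 c0 d ∧ ¬ G.Adj x d) ∨
    (TK G c0 c1 c2 c3 c4 x ∧ ∃ d, TD G c4 c0 c1 c2 c3 d ∧ ¬ G.Adj x d) ∨
    (TM G c0 c1 c2 c3 c4 x ∧ ∃ k, TK G c0 c1 c2 c3 c4 k ∧ ¬ G.Adj k x)

theorem few_bad (hg : NoGem G) (hp : NoP23 G) {c0 c1 c2 c3 c4 : V}
    (hc : C5c G c0 c1 c2 c3 c4) : Few (Bad G c0 c1 c2 c3 c4) 6 := by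
  have h := (few_one (P := fun x => x = c0) (fun x y hx hy => hx.trans hy.symm)).or
    ((few_one (t1_one hp hc)).or ((few_one (t2_one hp hc)).or ((few_one (kd_one hg hp hc)).or
      ((few_one (kd_one' hg hp hc)).or (few_one (km_one hg hp hc))))))
  exact h

theorem c5_rot {c0 c1 c2 c3 c4 : V} (hc : C5c G c0 c1 c2 c3 c4) : C5c G c1 c2 c3 c4 c0 := by
  obtain ⟨h1, h2, h3, h4, h5, h6, h7, h8, h9, h10⟩ := hc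
  exact ⟨h2, h3, h4, h5, h1, h8, h9, h10, fun h => h6 h.symm, fun h => h7 h.symm⟩

theorem classify (hg : NoGem G) {c0 c1 c2 c3 c4 x : V} (hc : C5c G c0 c1 c2 c3 c4)
    (b0 : ¬ Bad G c0 c1 c2 c3 c4 x) (b1 : ¬ Bad G c1 c2 c3 c4 c0 x)
    (b2 : ¬ Bad G c2 c3 c4 c0 c1 x) (b3 : ¬ Bad G c3 c4 c0 c1 c2 x)
    (b4 : ¬ Bad G c4 c0 c1 c2 c3 x) :
    TN G c0 c1 c2 c3 c4 x ∨
      TD G c0 c1 c2 c3 c4 x ∨ TD G c1 c2 c3 c4 c0 x ∨ TD G c2 c3 c4 c0 c1 x ∨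
      TD G c3 c4 c0 c1 c2 x ∨ TD G c4 c0 c1 c2 c3 x ∨
      TK G c0 c1 c2 c3 c4 x ∨ TK G c1 c2 c3 c4 c0 x ∨ TK G c2 c3 c4 c0 c1 x ∨
      TK G c3 c4 c0 c1 c2 x ∨ TK G c4 c0 c1 c2 c3 x ∨
      TM G c0 c1 c2 c3 c4 x ∨ TM G c1 c2 c3 c4 c0 x ∨ TM G c2 c3 c4 c0 c1 x ∨
      TM G c3 c4 c0 c1 c2 x ∨ TM G c4 c0 c1 c2 c3 x := by
  unfold Bad at b0 b1 b2 b3 b4
  simp only [not_or] at b0 b1 b2 b3 b4
  obtain ⟨e0, a0, d0, -, -, -⟩ := b0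
  obtain ⟨e1, a1, d1, -, -, -⟩ := b1
  obtain ⟨e2, a2, d2, -, -, -⟩ := b2
  obtain ⟨e3, a3, d3, -, -, -⟩ := b3
  obtain ⟨e4, a4, d4, -, -, -⟩ := b4
  have q0 : ¬ (G.Adj c0 x ∧ G.Adj c1 x ∧ G.Adj c2 x ∧ G.Adj c3 x) := by
    rintro ⟨h1, h2, h3, h4⟩; clear a0 a1 a2 a3 a4 d0 d1 d2 d3 d4; gp
  have q1 : ¬ (G.Adj c1 x ∧ G.Adj c2 x ∧ G.Adj c3 x ∧ G.Adj c4 x) := by
    rintro ⟨h1, h2, h3, h4⟩; clear a0 a1 a2 a3 a4 d0 d1 d2 d3 d4; gp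
  have q2 : ¬ (G.Adj c2 x ∧ G.Adj c3 x ∧ G.Adj c4 x ∧ G.Adj c0 x) := by
    rintro ⟨h1, h2, h3, h4⟩; clear a0 a1 a2 a3 a4 d0 d1 d2 d3 d4; gp
  have q3 : ¬ (G.Adj c3 x ∧ G.Adj c4 x ∧ G.Adj c0 x ∧ G.Adj c1 x) := by
    rintro ⟨h1, h2, h3, h4⟩; clear a0 a1 a2 a3 a4 d0 d1 d2 d3 d4; gp
  have q4 : ¬ (G.Adj c4 x ∧ G.Adj c0 x ∧ G.Adj c1 x ∧ G.Adj c2 x) := by
    rintro ⟨h1, h2, h3, h4⟩; clear a0 a1 a2 a3 a4 d0 d1 d2 d3 d4; gp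
  unfold T1 at a0 a1 a2 a3 a4
  unfold T2 at d0 d1 d2 d3 d4
  unfold TN TD TK TM
  clear hc
  by_cases h0 : G.Adj c0 x <;> by_cases h1 : G.Adj c1 x <;> by_cases h2 : G.Adj c2 x <;>
    by_cases h3 : G.Adj c3 x <;> by_cases h4 : G.Adj c4 x <;>
    simp_all

theorem c5_stmt (hC5a : C5aStmt) : C5Stmt := by
  obtain ⟨K, hK⟩ := hC5a
  refine ⟨(K + 1) * 2 ^ 30, ?_⟩
  intro V G hg hp c0 c1 c2 c3 c4 hc R
  have r1 := c5_rot hc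
  have r2 := c5_rot r1
  have r3 := c5_rot r2
  have r4 := c5_rot r3
  obtain ⟨S, hS, hS'⟩ := (few_bad hg hp hc).or ((few_bad hg hp r1).or ((few_bad hg hp r2).or
    ((few_bad hg hp r3).or (few_bad hg hp r4))))
  refine BD.of_sdiff (X := S) ?_ hS
  have hbad : ∀ x ∈ R \ S, ¬ Bad G c0 c1 c2 c3 c4 x ∧ ¬ Bad G c1 c2 c3 c4 c0 x ∧
      ¬ Bad G c2 c3 c4 c0 c1 x ∧ ¬ Bad G c3 c4 c0 c1 c2 x ∧ ¬ Bad G c4 c0 c1 c2 c3 x := by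
    intro x hx
    rw [mem_sdiff] at hx
    have h1 : ¬ _ := fun h => hx.2 (hS' x h)
    simpa only [not_or] using h1
  have key : ∀ {c0 c1 c2 c3 c4 : V}, (∀ x ∈ R \ S, ¬ Bad G c0 c1 c2 c3 c4 x) →
      (∀ x ∈ R \ S, ∀ y ∈ R \ S, TK G c0 c1 c2 c3 c4 x →
      (TD G c1 c2 c3 c4 c0 y ∨ TD G c4 c0 c1 c2 c3 y ∨ TM G c0 c1 c2 c3 c4 y) → G.Adj x y) := by
    intro c0 c1 c2 c3 c4 hb x hx y hy hk h
    by_contra hxy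
    rcases h with h | h | h
    · exact hb x hx (Or.inr (Or.inr (Or.inr (Or.inl ⟨hk, y, h, hxy⟩))))
    · exact hb x hx (Or.inr (Or.inr (Or.inr (Or.inr (Or.inl ⟨hk, y, h, hxy⟩)))))
    · exact hb y hy (Or.inr (Or.inr (Or.inr (Or.inr (Or.inr ⟨h, x, hk, hxy⟩)))))
  refine hK V G hg hp c0 c1 c2 c3 c4 hc (R \ S) ?_ ?_ ?_ ?_ ?_ ?_
  · intro x hx
    obtain ⟨b0, b1, b2, b3, b4⟩ := hbad x hx
    exact classify hg hc b0 b1 b2 b3 b4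
  · exact key fun x hx => (hbad x hx).1
  · exact key fun x hx => (hbad x hx).2.1
  · exact key fun x hx => (hbad x hx).2.2.1
  · exact key fun x hx => (hbad x hx).2.2.2.1
  · exact key fun x hx => (hbad x hx).2.2.2.2

end Pool.Agent.H175G.C5asm
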